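import Pool.Agent.Helper32.OIP.Goals

/-!
# The permutations of the concrete system: measures (packet OIP-O6a)
-/

namespace Pool.Agent.Helper50.OIP

open MeasureTheory
open Pool.Agent.Helper32.OIP Pool.Agent.Helper58.Orb

lemma measurable_fs {C N : Type} [MeasurableSpace N] :
    Measurable (fs : (C → unitInterval × N) → Bern C) :=
  measurable_pi_lambda _ fun a => measurable_fst.comp (measurable_pi_apply a)

lemma trans_eq_iff {D L : Type} (f : D ≃ L) (g : L ≃ D) (σ : Equiv.Perm D) :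
    f.trans g = σ ↔ g = f.symm.trans σ := by
  constructor
  · rintro rfl
    ext x
    simp
  · rintro rfl
    ext x
    simp

/-- Packet O6a. -/
theorem o6a : GoalO6a := by
  intro hR0 hO1 hO2 hO3 hO4 hMA1 hMA2 hS0 A B _ _ _ _ S S' D L _ _ _ T T' e₀ Φ Ψ hIso q hq0 hq1
  obtain ⟨hSa, hSb, hSc⟩ := hS0 hMA1
  obtain ⟨hprob, hprobn, hjn, hJb⟩ := hSa q hq0 hq1
  have := hprob
  have := hprobn
  have hO2Φ := hO2 hR0 hO1 A B S S' D L T T' e₀ Φ hIso.isoL
  have hO2Ψ := hO2 hR0 hO1 B A S' S L D T' T e₀.symm Ψ hIso.isoR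
  have thΦ : MeasurePreserving (Th Φ : (A → E0) → (B → E0)) (pm A (nu q)) (pm B (nu q)) :=
    hO4 hMA1 hMA2 A B Nz (nz q) Φ hIso.isoL.measurePreserving
      (hO2Φ.2.1.mono fun x hx => hx.1) hO2Φ.2.2
  have thΨ : MeasurePreserving (Th Ψ : (B → E0) → (A → E0)) (pm B (nu q)) (pm A (nu q)) :=
    hO4 hMA1 hMA2 B A Nz (nz q) Ψ hIso.isoR.measurePreserving
      (hO2Ψ.2.1.mono fun x hx => hx.1) hO2Ψ.2.2
  have mJT : MeasurePreserving (fun z : A → E0 => Jb (Th Φ z)) (pm A (nu q)) (pm B (nu q)) :=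
    (hJb B).comp thΦ
  have hlΦ := (hO1 A B S S' D L T T' e₀ Φ hIso.isoL).2.2
  have hlΨ := (hO1 B A S' S L D T' T e₀.symm Ψ hIso.isoR).2.2
  refine ⟨thΨ.comp mJT, ?_, ?_⟩
  · intro σ
    have h1 : {z : A → E0 | PiA T T' e₀ Φ Ψ z = σ} =
        ⋃ f₀ : D ≃ L, (fs ⁻¹' {x | lab T T' e₀ Φ x = f₀}) ∩
          ((fun z : A → E0 => fs (Jb (Th Φ z))) ⁻¹'
            {y | lab T' T e₀.symm Ψ y = f₀.symm.trans σ}) := by
      ext z
      simp only [Set.mem_iUnion, Set.mem_inter_iff, Set.mem_preimage, Set.mem_ofPred_eq]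
      unfold PiA
      rw [trans_eq_iff]
      constructor
      · intro h
        exact ⟨_, rfl, h⟩
      · rintro ⟨f₀, h2, h3⟩
        rw [h2, h3]
    rw [h1]
    refine MeasurableSet.iUnion fun f₀ => ?_
    exact (measurable_fs (hlΦ f₀)).inter
      ((measurable_fs.comp mJT.measurable) (hlΨ (f₀.symm.trans σ)))
  · -- the law of the labels
    have hfs : MeasurePreserving (fs : (A → E0) → Bern A) (pm A (nu q)) (bern A) :=
      hMA1.1 A E0 unitInterval (nu q) volume (fun _ => Prod.fst)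
        (fun _ => measurePreserving_fst)
    have hae := hfs.quasiMeasurePreserving.ae
      (hO3 hR0 hO1 hO2 A B S S' D L T T' e₀ Φ Ψ hIso).1
    have mW : MeasurableSet {w : B → E0 |
        lab T' T e₀.symm Ψ (fs w) ≠ lab T' T e₀.symm Ψ (fs (Jb w))} := by
      have h1 : {w : B → E0 | lab T' T e₀.symm Ψ (fs w) ≠ lab T' T e₀.symm Ψ (fs (Jb w))} =
          (⋃ g₀ : L ≃ D, (fs ⁻¹' {x | lab T' T e₀.symm Ψ x = g₀}) ∩
            ((fun w : B → E0 => fs (Jb w)) ⁻¹' {y | lab T' T e₀.symm Ψ y = g₀}))ᶜ := by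
        ext w
        simp only [Set.mem_compl_iff, Set.mem_iUnion, Set.mem_inter_iff, Set.mem_preimage,
          Set.mem_ofPred_eq, not_exists, not_and]
        constructor
        · intro h g₀ h2 h3
          exact h (h2.trans h3.symm)
        · intro h h2
          exact h _ rfl h2.symm
      rw [h1]
      refine (MeasurableSet.iUnion fun g₀ => ?_).compl
      exact (measurable_fs (hlΨ g₀)).inter
        ((measurable_fs.comp (hJb B).measurable) (hlΨ g₀))
    unfold dl
    rw [Measure.real, Measure.real, ← thΦ.measure_preimage mW.nullMeasurableSet]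
    congr 1
    refine measure_congr ?_
    rw [Filter.eventuallyEq_set]
    filter_upwards [hae] with z hz
    have e1 : fs (Th Φ z) = Φ (fs z) := rfl
    simp only [Set.mem_preimage, Set.mem_ofPred_eq]
    rw [e1, hz, not_iff_not]
    unfold PiA
    rw [trans_eq_iff]
    constructor
    · intro h
      rw [h]
      ext x
      simp
    · intro h
      rw [← h]
      ext x
      simp

end Pool.Agent.Helper50.OIP
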